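import Mathlib

/-!
# Stable flow length of homeomorphisms that are conjugate to their inverse

If `g f g⁻¹ = f⁻¹` then `f ^ (2 n) = (f ^ n g f ^ (-n)) g⁻¹`.  The set of time-one maps of flows is
invariant under conjugation and inversion, so the flow length of `f ^ (2 n)` is at most twice the
flow length of `g`, and the stable flow length of `f` vanishes.
-/

open Filter Topology

noncomputable section

namespace Pool.Agent.Results.MP_e54d61_gt.ReversibleFlowLength

/-! ## Definitions -/

/-- A flow on `X`: a continuous one-parameter group of homeomorphisms of `X`. -/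
structure IsFlow {X : Type*} [TopologicalSpace X] (φ : ℝ → (X ≃ₜ X)) : Prop where
  map_add : ∀ s t, φ (s + t) = φ s * φ t
  continuous_uncurry : Continuous fun p : ℝ × X => φ p.1 p.2

/-- The set of all time-one maps of flows on `X`. -/
def timeOneMaps (X : Type*) [TopologicalSpace X] : Set (X ≃ₜ X) :=
  {h | ∃ φ : ℝ → (X ≃ₜ X), IsFlow φ ∧ φ 1 = h}

/-- The group of homeomorphisms of `X` generated by the time-one maps of flows.  For a closed
surface this is the identity component `Homeo₀(X)` of the homeomorphism group. -/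
def flowGroup (X : Type*) [TopologicalSpace X] : Subgroup (X ≃ₜ X) :=
  Subgroup.closure (timeOneMaps X)

/-- The word length of `h` with respect to `S`: the least number of elements of `S` whose product
is `h` (infinite if there is no such product). -/
def wordLength {G : Type*} [Group G] (S : Set G) (h : G) : ℕ∞ :=
  ⨅ (l : List G) (_ : (∀ s ∈ l, s ∈ S) ∧ l.prod = h), (l.length : ℕ∞)

/-- The flow length. -/
def flowLength {X : Type*} [TopologicalSpace X] (h : X ≃ₜ X) : ℕ∞ :=
  wordLength (timeOneMaps X) h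

/-- `f` has stable word length `c`: the word lengths of the powers of `f` are finite and
`‖f ^ n‖ / n` tends to `c`. -/
def HasStableFlowLength {X : Type*} [TopologicalSpace X] (f : X ≃ₜ X) (c : ℝ) : Prop :=
  (∀ n : ℕ, flowLength (f ^ n) ≠ ⊤) ∧
    Tendsto (fun n : ℕ => ((flowLength (f ^ n)).toNat : ℝ) / n) atTop (𝓝 c)

/-! ## Word length -/

section Word

variable {G : Type*} [Group G] {S : Set G}

lemma wordLength_le {l : List G} (hl : ∀ s ∈ l, s ∈ S) : wordLength S l.prod ≤ l.length :=
  iInf₂_le (f := fun (l' : List G) (_ : (∀ s ∈ l', s ∈ S) ∧ l'.prod = l.prod) =>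
    (l'.length : ℕ∞)) l ⟨hl, rfl⟩

lemma exists_word {h : G} (hh : wordLength S h ≠ ⊤) :
    ∃ l : List G, (∀ s ∈ l, s ∈ S) ∧ l.prod = h ∧ (l.length : ℕ∞) = wordLength S h := by
  classical
  by_contra hcon
  push Not at hcon
  obtain ⟨m, hm⟩ := ENat.ne_top_iff_exists.1 hh
  have h1 : ((m + 1 : ℕ) : ℕ∞) ≤ wordLength S h := by
    refine le_iInf₂ fun l hl => ?_
    have hge : wordLength S h ≤ (l.length : ℕ∞) := iInf₂_le (f := fun (l' : List G)
      (_ : (∀ s ∈ l', s ∈ S) ∧ l'.prod = h) => (l'.length : ℕ∞)) l hl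
    have hne := hcon l hl.1 hl.2
    rw [← hm] at hge hne
    have h2 : m ≤ l.length := by exact_mod_cast hge
    have h3 : l.length ≠ m := fun h => hne (by exact_mod_cast h)
    exact_mod_cast (by omega : m + 1 ≤ l.length)
  rw [← hm] at h1
  have : m + 1 ≤ m := by exact_mod_cast h1
  omega

lemma wordLength_mul_le (a b : G) : wordLength S (a * b) ≤ wordLength S a + wordLength S b := by
  by_cases ha : wordLength S a = ⊤
  · simp [ha]
  by_cases hb : wordLength S b = ⊤
  · simp [hb]
  obtain ⟨l, hl, rfl, hl'⟩ := exists_word ha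
  obtain ⟨m, hm, rfl, hm'⟩ := exists_word hb
  rw [← hl', ← hm', ← List.prod_append]
  refine (wordLength_le ?_).trans (by simp)
  intro s hs
  rcases List.mem_append.1 hs with h | h
  · exact hl s h
  · exact hm s h

lemma wordLength_inv_le (hS : ∀ s ∈ S, s⁻¹ ∈ S) (a : G) : wordLength S a⁻¹ ≤ wordLength S a := by
  by_cases ha : wordLength S a = ⊤
  · simp [ha]
  obtain ⟨l, hl, rfl, hl'⟩ := exists_word ha
  rw [← hl', List.prod_inv_reverse]
  refine (wordLength_le ?_).trans (by simp)
  intro s hs
  rw [List.mem_reverse, List.mem_map] at hs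
  obtain ⟨t, ht, rfl⟩ := hs
  exact hS t (hl t ht)

lemma wordLength_conj_le (hS : ∀ c : G, ∀ s ∈ S, c * s * c⁻¹ ∈ S) (a c : G) :
    wordLength S (c * a * c⁻¹) ≤ wordLength S a := by
  by_cases ha : wordLength S a = ⊤
  · simp [ha]
  obtain ⟨l, hl, rfl, hl'⟩ := exists_word ha
  have key : c * l.prod * c⁻¹ = (l.map fun s => c * s * c⁻¹).prod :=
    map_list_prod (MulAut.conj c) l
  rw [← hl', key]
  refine (wordLength_le ?_).trans (by simp)
  intro s hs
  rw [List.mem_map] at hs
  obtain ⟨t, ht, rfl⟩ := hs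
  exact hS c t (hl t ht)

lemma wordLength_ne_top_of_mem (hS : ∀ s ∈ S, s⁻¹ ∈ S) {a : G} (ha : a ∈ Subgroup.closure S) :
    wordLength S a ≠ ⊤ := by
  induction ha using Subgroup.closure_induction with
  | mem x hx =>
    have := wordLength_le (S := S) (l := [x]) (by simpa using hx)
    intro h
    simp [h] at this
  | one =>
    have := wordLength_le (S := S) (l := []) (by simp)
    intro h
    simp [h] at this
  | mul x y _ _ hx hy =>
    intro h
    have := wordLength_mul_le (S := S) x y
    rw [h, top_le_iff] at this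
    rcases WithTop.add_eq_top.1 this with h | h
    · exact hx h
    · exact hy h
  | inv x _ hx =>
    intro h
    have := wordLength_inv_le hS x
    rw [h, top_le_iff] at this
    exact hx this

end Word

/-! ## Flows -/

section Flow

variable {X : Type*} [TopologicalSpace X]

lemma timeOneMaps_inv {h : X ≃ₜ X} (hh : h ∈ timeOneMaps X) : h⁻¹ ∈ timeOneMaps X := by
  obtain ⟨φ, hφ, rfl⟩ := hh
  refine ⟨fun t => φ (-t), ⟨fun s t => ?_, ?_⟩, ?_⟩
  · rw [neg_add, hφ.map_add]
  · exact hφ.continuous_uncurry.comp ((continuous_fst.neg).prodMk continuous_snd)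
  · have h0 : φ 0 = 1 := by
      have := hφ.map_add 0 0
      rw [add_zero] at this
      exact (mul_eq_left.1 this.symm)
    have h1 : φ (-1) * φ 1 = 1 := by
      rw [← hφ.map_add, neg_add_cancel, h0]
    exact eq_inv_of_mul_eq_one_left h1

lemma timeOneMaps_conj (c : X ≃ₜ X) {h : X ≃ₜ X} (hh : h ∈ timeOneMaps X) :
    c * h * c⁻¹ ∈ timeOneMaps X := by
  obtain ⟨φ, hφ, rfl⟩ := hh
  refine ⟨fun t => c * φ t * c⁻¹, ⟨fun s t => ?_, ?_⟩, rfl⟩
  · rw [hφ.map_add]; group
  · have h1 : Continuous fun p : ℝ × X => φ p.1 (c⁻¹ p.2) :=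
      hφ.continuous_uncurry.comp (continuous_fst.prodMk ((c⁻¹).continuous.comp continuous_snd))
    exact c.continuous.comp h1

end Flow

/-- **Main result.**  Let `X` be a topological space (for instance a closed surface), let `f`, `g`
lie in the group generated by the time-one maps of flows, and let `g` conjugate `f` to `f⁻¹`.
Then the flow length of all even powers `f ^ (2 n)` is at most twice the flow length of `g`, which is
finite, and the stable flow length of `f` is `0`. -/
theorem result (X : Type*) [TopologicalSpace X] (f g : X ≃ₜ X) (hf : f ∈ flowGroup X)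
    (hg : g ∈ flowGroup X) (hfg : g * f * g⁻¹ = f⁻¹) :
    flowLength g ≠ ⊤ ∧ (∀ n : ℕ, flowLength (f ^ (2 * n)) ≤ 2 * flowLength g) ∧
      HasStableFlowLength f 0 := by
  have hinv : ∀ s ∈ timeOneMaps X, s⁻¹ ∈ timeOneMaps X := fun s hs => timeOneMaps_inv hs
  have hconj : ∀ c : X ≃ₜ X, ∀ s ∈ timeOneMaps X, c * s * c⁻¹ ∈ timeOneMaps X :=
    fun c s hs => timeOneMaps_conj c hs
  have hgt : flowLength g ≠ ⊤ := wordLength_ne_top_of_mem hinv hg
  have hft : flowLength f ≠ ⊤ := wordLength_ne_top_of_mem hinv hf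
  have heven : ∀ n : ℕ, flowLength (f ^ (2 * n)) ≤ 2 * flowLength g := by
    intro n
    have h1 : g * f ^ n * g⁻¹ = (f ^ n)⁻¹ := by
      rw [← conj_pow, hfg, inv_pow]
    have h2 : f ^ (2 * n) = (f ^ n * g * (f ^ n)⁻¹) * g⁻¹ := by
      have h3 : g * (f ^ n)⁻¹ * g⁻¹ = f ^ n := by
        have := congrArg (·⁻¹) h1
        simpa [mul_assoc] using this
      calc f ^ (2 * n) = f ^ n * f ^ n := by rw [two_mul, pow_add]
        _ = f ^ n * (g * (f ^ n)⁻¹ * g⁻¹) := by rw [h3]
        _ = _ := by group
    calc flowLength (f ^ (2 * n))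
        ≤ flowLength (f ^ n * g * (f ^ n)⁻¹) + flowLength g⁻¹ := by
          rw [h2]; exact wordLength_mul_le _ _
      _ ≤ flowLength g + flowLength g :=
          add_le_add (wordLength_conj_le hconj _ _) (wordLength_inv_le hinv _)
      _ = 2 * flowLength g := (two_mul _).symm
  have hall : ∀ n : ℕ, flowLength (f ^ n) ≤ 2 * flowLength g + flowLength f := by
    intro n
    rcases Nat.even_or_odd' n with ⟨k, rfl | rfl⟩
    · exact (heven k).trans le_self_add
    · calc flowLength (f ^ (2 * k + 1)) = flowLength (f ^ (2 * k) * f) := by rw [pow_succ]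
        _ ≤ flowLength (f ^ (2 * k)) + flowLength f := wordLength_mul_le _ _
        _ ≤ _ := add_le_add (heven k) le_rfl
  have hCt : 2 * flowLength g + flowLength f ≠ ⊤ := by
    intro h
    rcases WithTop.add_eq_top.1 h with h | h
    · rw [two_mul] at h
      rcases WithTop.add_eq_top.1 h with h | h <;> exact hgt h
    · exact hft h
  refine ⟨hgt, heven, fun n => ne_top_of_le_ne_top hCt (hall n), ?_⟩
  obtain ⟨C, hC⟩ := ENat.ne_top_iff_exists.1 hCt
  have hbd : ∀ n : ℕ, ((flowLength (f ^ n)).toNat : ℝ) ≤ C := by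
    intro n
    have h1 := hall n
    rw [← hC] at h1
    have h2 := ENat.toNat_le_toNat h1 (ENat.natCast_ne_top C)
    rw [ENat.toNat_natCast] at h2
    exact_mod_cast h2
  refine squeeze_zero (g := fun n : ℕ => (C : ℝ) / n) (fun n => by positivity) (fun n => ?_)
    (tendsto_const_div_atTop_nhds_zero_nat (C : ℝ))
  exact div_le_div_of_nonneg_right (hbd n) (by positivity)

end Pool.Agent.Results.MP_e54d61_gt.ReversibleFlowLength
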